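import Mathlib

/-!
# The sum over the scales (numerical part of `THK`)
-/

set_option autoImplicit false

namespace Pool.Agent.Y681.FR

open Finset

/-- the width of the gates at the scale `i` -/
def ww (M B k i : ℕ) : ℕ := 4 * (16 * 2 ^ i) ^ B / (M * (8 * k) ^ (B - 1))

/-- the scales -/
def JJ (M B k : ℕ) : Finset ℕ := (range k).filter fun i => 2 ^ i ≤ k ∧ 1 ≤ ww M B k i

theorem ww_mul (M B k i : ℕ) : ww M B k i * (M * (8 * k) ^ (B - 1)) ≤ 4 * (16 * 2 ^ i) ^ B :=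
  Nat.div_mul_le_self _ _

theorem ww_le {M B k i : ℕ} (hB : 1 ≤ B) (hM : 128 * 16 ^ B ≤ M) (hi : 2 ^ i ≤ k) :
    32 * ww M B k i ≤ 2 ^ i := by
  have h1 := ww_mul M B k i
  obtain ⟨b, rfl⟩ : ∃ b, B = b + 1 := ⟨B - 1, by omega⟩
  rw [Nat.add_sub_cancel] at h1
  have hu : 0 < 2 ^ i := by positivity
  have h2 : (2 ^ i) ^ b ≤ (8 * k) ^ b := Nat.pow_le_pow_left (by omega) b
  have h3 : ww M (b + 1) k i * (M * (2 ^ i) ^ b) ≤ 4 * (16 * 2 ^ i) ^ (b + 1) :=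
    le_trans (Nat.mul_le_mul_left _ (Nat.mul_le_mul_left _ h2)) h1
  have h4 : 4 * (16 * 2 ^ i) ^ (b + 1) = (4 * 16 ^ (b + 1) * 2 ^ i) * (2 ^ i) ^ b := by
    rw [mul_pow, pow_succ (2 ^ i) b]; ring
  have h5 : (ww M (b + 1) k i * M) * (2 ^ i) ^ b ≤ (4 * 16 ^ (b + 1) * 2 ^ i) * (2 ^ i) ^ b := by
    rw [← h4, mul_assoc]; exact h3
  have h6 : ww M (b + 1) k i * M ≤ 4 * 16 ^ (b + 1) * 2 ^ i :=
    Nat.le_of_mul_le_mul_right h5 (by positivity)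
  have h7 : ww M (b + 1) k i * (128 * 16 ^ (b + 1)) ≤ 4 * 16 ^ (b + 1) * 2 ^ i :=
    le_trans (Nat.mul_le_mul_left _ hM) h6
  have h8 : (4 * 16 ^ (b + 1)) * (32 * ww M (b + 1) k i) ≤ (4 * 16 ^ (b + 1)) * 2 ^ i := by
    calc (4 * 16 ^ (b + 1)) * (32 * ww M (b + 1) k i)
        = ww M (b + 1) k i * (128 * 16 ^ (b + 1)) := by ring
      _ ≤ _ := h7
  exact Nat.le_of_mul_le_mul_left h8 (by positivity)

theorem term_le {C c1 : ℝ} (hC : 0 < C) (hc1 : 0 < c1) {M B k i : ℕ} (hB : 1 ≤ B) (hM : 1 ≤ M)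
    (hcB : 1 ≤ c1 * ((B : ℝ) - 1)) (hi : 2 ^ i ≤ k) :
    C * ((2 ^ i : ℕ) : ℝ) ^ (-(2 / 3 : ℝ)) * ((ww M B k i : ℝ) / ((2 ^ i : ℕ) : ℝ)) ^ c1 ≤
      C * (4 * 16 ^ B / (M : ℝ)) ^ c1 / (8 * k) * ((2 : ℝ) ^ (1 / 3 : ℝ)) ^ i := by
  have hu : (0:ℝ) < 2 ^ i := by positivity
  have hk1 : 0 < k := lt_of_lt_of_le (by positivity) hi
  have hk : (0:ℝ) < k := by exact_mod_cast hk1
  have hM0 : (0:ℝ) < M := by exact_mod_cast hM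
  have hik : (2:ℝ) ^ i ≤ k := by exact_mod_cast hi
  have hA : (0:ℝ) < 4 * 16 ^ B / (M : ℝ) := by positivity
  push_cast
  have hx : (0:ℝ) < 2 ^ i / (8 * k) := by positivity
  have hx1 : (2:ℝ) ^ i / (8 * k) ≤ 1 := by
    rw [div_le_one (by positivity)]
    linarith
  have h1 : (ww M B k i : ℝ) / 2 ^ i ≤ (4 * 16 ^ B / (M : ℝ)) * (2 ^ i / (8 * k)) ^ (B - 1) := by
    have h2 := ww_mul M B k i
    have h3 : (ww M B k i : ℝ) * (M * (8 * k) ^ (B - 1)) ≤ 4 * (16 * 2 ^ i) ^ B := by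
      exact_mod_cast h2
    rw [div_le_iff₀ hu, div_pow, div_mul_div_comm, div_mul_eq_mul_div, le_div_iff₀ (by positivity)]
    refine h3.trans (le_of_eq ?_)
    obtain ⟨b, rfl⟩ : ∃ b, B = b + 1 := ⟨B - 1, by omega⟩
    rw [Nat.add_sub_cancel, mul_pow, pow_succ ((2:ℝ) ^ i) b]
    ring
  have h2 : ((ww M B k i : ℝ) / 2 ^ i) ^ c1 ≤ (4 * 16 ^ B / (M : ℝ)) ^ c1 * (2 ^ i / (8 * k)) := by
    calc ((ww M B k i : ℝ) / 2 ^ i) ^ c1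
        ≤ ((4 * 16 ^ B / (M : ℝ)) * (2 ^ i / (8 * k)) ^ (B - 1)) ^ c1 :=
          Real.rpow_le_rpow (by positivity) h1 hc1.le
      _ = (4 * 16 ^ B / (M : ℝ)) ^ c1 * ((2 ^ i / (8 * k)) ^ (B - 1)) ^ c1 :=
          Real.mul_rpow hA.le (by positivity)
      _ ≤ (4 * 16 ^ B / (M : ℝ)) ^ c1 * (2 ^ i / (8 * k)) := by
          apply mul_le_mul_of_nonneg_left _ (by positivity)
          have e1 : (((2:ℝ) ^ i / (8 * k)) ^ (B - 1)) ^ c1 =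
              ((2:ℝ) ^ i / (8 * k)) ^ (c1 * ((B : ℝ) - 1)) := by
            rw [← Real.rpow_natCast, ← Real.rpow_mul hx.le, Nat.cast_sub hB, Nat.cast_one,
              mul_comm c1]
          rw [e1]
          calc ((2:ℝ) ^ i / (8 * k)) ^ (c1 * ((B : ℝ) - 1)) ≤ ((2:ℝ) ^ i / (8 * k)) ^ (1 : ℝ) :=
                Real.rpow_le_rpow_of_exponent_ge hx hx1 hcB
            _ = _ := Real.rpow_one _
  have h3 : ((2:ℝ) ^ i) ^ (-(2 / 3 : ℝ)) * 2 ^ i = ((2 : ℝ) ^ (1 / 3 : ℝ)) ^ i := by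
    have e1 : ((2:ℝ) ^ i) ^ (-(2 / 3 : ℝ)) * 2 ^ i = ((2:ℝ) ^ i) ^ (1 / 3 : ℝ) := by
      conv_lhs => rw [← Real.rpow_one ((2:ℝ) ^ i), ← Real.rpow_mul hu.le, ← Real.rpow_add hu]
      norm_num
    rw [e1, ← Real.rpow_natCast, ← Real.rpow_natCast, ← Real.rpow_mul (by norm_num),
      ← Real.rpow_mul (by norm_num), mul_comm]
  calc C * ((2:ℝ) ^ i) ^ (-(2 / 3 : ℝ)) * ((ww M B k i : ℝ) / 2 ^ i) ^ c1
      ≤ C * ((2:ℝ) ^ i) ^ (-(2 / 3 : ℝ)) * ((4 * 16 ^ B / (M : ℝ)) ^ c1 * (2 ^ i / (8 * k))) :=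
        mul_le_mul_of_nonneg_left h2 (by positivity)
    _ = C * (4 * 16 ^ B / (M : ℝ)) ^ c1 / (8 * k) * (((2:ℝ) ^ i) ^ (-(2 / 3 : ℝ)) * 2 ^ i) := by
        ring
    _ = _ := by rw [h3]

theorem geo {k : ℕ} (hk : 1 ≤ k) : ∑ i ∈ (range k).filter (fun i => 2 ^ i ≤ k),
    ((2 : ℝ) ^ (1 / 3 : ℝ)) ^ i ≤
      ((2 : ℝ) ^ (1 / 3 : ℝ) / ((2 : ℝ) ^ (1 / 3 : ℝ) - 1)) * (k : ℝ) ^ (1 / 3 : ℝ) := by
  have hβ : 1 < (2 : ℝ) ^ (1 / 3 : ℝ) := Real.one_lt_rpow (by norm_num) (by norm_num)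
  set β := (2 : ℝ) ^ (1 / 3 : ℝ) with hβdef
  have hβ1 : 0 < β - 1 := by linarith
  have h1 : ∑ i ∈ (range k).filter (fun i => 2 ^ i ≤ k), β ^ i ≤
      ∑ i ∈ range (Nat.log 2 k + 1), β ^ i := by
    apply Finset.sum_le_sum_of_subset_of_nonneg
    · intro i hi
      have h2 := (Finset.mem_filter.1 hi).2
      rw [Finset.mem_range]
      exact Nat.lt_succ_of_le (Nat.le_log_of_pow_le (by norm_num) h2)
    · intro i _ _; positivity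
  refine h1.trans ?_
  rw [geom_sum_eq hβ.ne']
  have h2 : β ^ (Nat.log 2 k) ≤ (k : ℝ) ^ (1 / 3 : ℝ) := by
    have h3 : (2:ℝ) ^ (Nat.log 2 k) ≤ k := by
      exact_mod_cast Nat.pow_log_le_self 2 (by omega)
    have h4 : β ^ (Nat.log 2 k) = ((2:ℝ) ^ (Nat.log 2 k)) ^ (1 / 3 : ℝ) := by
      rw [hβdef, ← Real.rpow_natCast, ← Real.rpow_natCast, ← Real.rpow_mul (by norm_num),
        ← Real.rpow_mul (by norm_num), mul_comm]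
    rw [h4]
    exact Real.rpow_le_rpow (by positivity) h3 (by norm_num)
  rw [div_mul_eq_mul_div]
  apply div_le_div_of_nonneg_right _ hβ1.le
  rw [pow_succ]
  nlinarith

/-- the numerical estimate -/
theorem numsum {C c1 ε : ℝ} (hC : 0 < C) (hc1 : 0 < c1) (hε : 0 < ε) {B : ℕ} (hB : 1 ≤ B)
    (hcB : 1 ≤ c1 * ((B : ℝ) - 1)) : ∃ M0 : ℕ, ∀ M : ℕ, M0 ≤ M → 1 ≤ M → ∀ m : ℕ, 192 ≤ m →
    ∑ i ∈ JJ M B (m / 64), C * ((2 ^ i : ℕ) : ℝ) ^ (-(2 / 3 : ℝ)) *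
      ((ww M B (m / 64) i : ℝ) / ((2 ^ i : ℕ) : ℝ)) ^ c1 ≤ ε * (m : ℝ) ^ (-(2 / 3 : ℝ)) := by
  have hβ : 1 < (2 : ℝ) ^ (1 / 3 : ℝ) := Real.one_lt_rpow (by norm_num) (by norm_num)
  have hβ1 : 0 < (2 : ℝ) ^ (1 / 3 : ℝ) - 1 := by linarith
  set D : ℝ := (2 : ℝ) ^ (1 / 3 : ℝ) / ((2 : ℝ) ^ (1 / 3 : ℝ) - 1) with hD
  have hD0 : 0 < D := by positivity
  set K : ℝ := C * D / 8 * (128 : ℝ) ^ (2 / 3 : ℝ) with hK
  have hK0 : 0 < K := by positivity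
  obtain ⟨M0, hM0⟩ := exists_nat_ge (4 * 16 ^ B / (ε / K) ^ (1 / c1))
  refine ⟨M0, ?_⟩
  intro M hM hM1 m hm
  have hMr : (0:ℝ) < M := by exact_mod_cast hM1
  set k := m / 64 with hk
  have hk3 : 3 ≤ k := by omega
  have hk0 : (0:ℝ) < k := by exact_mod_cast (by omega : 0 < k)
  have hmk : (m : ℝ) / 128 ≤ k := by
    rw [div_le_iff₀ (by norm_num)]
    exact_mod_cast (by omega : m ≤ k * 128)
  have hm0 : (0:ℝ) < m := by exact_mod_cast (by omega : 0 < m)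
  set A : ℝ := 4 * 16 ^ B / (M : ℝ) with hA
  have hA0 : 0 < A := by positivity
  have hAe : K * A ^ c1 ≤ ε := by
    have h1 : A ≤ (ε / K) ^ (1 / c1) := by
      have hpos : 0 < (ε / K) ^ (1 / c1) := by positivity
      have h2 : 4 * 16 ^ B / (ε / K) ^ (1 / c1) ≤ (M : ℝ) :=
        hM0.trans (by exact_mod_cast hM)
      rw [div_le_iff₀ hpos] at h2
      rw [hA, div_le_iff₀ hMr]
      linarith
    have h2 : A ^ c1 ≤ ε / K := by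
      calc A ^ c1 ≤ ((ε / K) ^ (1 / c1)) ^ c1 := Real.rpow_le_rpow hA0.le h1 hc1.le
        _ = ε / K := by
          rw [← Real.rpow_mul (by positivity), one_div_mul_cancel hc1.ne', Real.rpow_one]
    rw [le_div_iff₀ hK0] at h2
    linarith
  have h1 : ∑ i ∈ JJ M B k, C * ((2 ^ i : ℕ) : ℝ) ^ (-(2 / 3 : ℝ)) *
      ((ww M B k i : ℝ) / ((2 ^ i : ℕ) : ℝ)) ^ c1 ≤
      ∑ i ∈ JJ M B k, C * A ^ c1 / (8 * k) * ((2 : ℝ) ^ (1 / 3 : ℝ)) ^ i := by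
    apply Finset.sum_le_sum
    intro i hi
    exact term_le hC hc1 hB hM1 hcB (Finset.mem_filter.1 hi).2.1
  have h2 : ∑ i ∈ JJ M B k, C * A ^ c1 / (8 * k) * ((2 : ℝ) ^ (1 / 3 : ℝ)) ^ i ≤
      ∑ i ∈ (range k).filter (fun i => 2 ^ i ≤ k),
        C * A ^ c1 / (8 * k) * ((2 : ℝ) ^ (1 / 3 : ℝ)) ^ i := by
    apply Finset.sum_le_sum_of_subset_of_nonneg
    · intro i hi
      have := Finset.mem_filter.1 hi
      exact Finset.mem_filter.2 ⟨this.1, this.2.1⟩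
    · intro i _ _; positivity
  rw [← Finset.mul_sum (s := (range k).filter (fun i => 2 ^ i ≤ k))] at h2
  have h3 := geo (k := k) (by omega)
  rw [← hD] at h3
  have h4 : (k : ℝ) ^ (1 / 3 : ℝ) / k = (k : ℝ) ^ (-(2 / 3 : ℝ)) := by
    rw [← Real.rpow_sub_one hk0.ne']
    norm_num
  have h5 : (k : ℝ) ^ (-(2 / 3 : ℝ)) ≤ (128 : ℝ) ^ (2 / 3 : ℝ) * (m : ℝ) ^ (-(2 / 3 : ℝ)) := by
    calc (k : ℝ) ^ (-(2 / 3 : ℝ)) ≤ ((m : ℝ) / 128) ^ (-(2 / 3 : ℝ)) :=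
          Real.rpow_le_rpow_of_nonpos (by positivity) hmk (by norm_num)
      _ = (m : ℝ) ^ (-(2 / 3 : ℝ)) * (128 : ℝ) ^ (2 / 3 : ℝ) := by
          rw [Real.div_rpow hm0.le (by norm_num), Real.rpow_neg (by norm_num : (0:ℝ) ≤ 128),
            div_inv_eq_mul]
      _ = _ := mul_comm _ _
  calc _ ≤ C * A ^ c1 / (8 * k) * ∑ i ∈ (range k).filter (fun i => 2 ^ i ≤ k),
        ((2 : ℝ) ^ (1 / 3 : ℝ)) ^ i := h1.trans h2
    _ ≤ C * A ^ c1 / (8 * k) * (D * (k : ℝ) ^ (1 / 3 : ℝ)) :=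
        mul_le_mul_of_nonneg_left h3 (by positivity)
    _ = C * A ^ c1 * D / 8 * ((k : ℝ) ^ (1 / 3 : ℝ) / k) := by
        field_simp
    _ ≤ C * A ^ c1 * D / 8 * ((128 : ℝ) ^ (2 / 3 : ℝ) * (m : ℝ) ^ (-(2 / 3 : ℝ))) := by
        rw [h4]
        exact mul_le_mul_of_nonneg_left h5 (by positivity)
    _ = (K * A ^ c1) * (m : ℝ) ^ (-(2 / 3 : ℝ)) := by rw [hK]; ring
    _ ≤ ε * (m : ℝ) ^ (-(2 / 3 : ℝ)) := mul_le_mul_of_nonneg_right hAe (by positivity)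

end Pool.Agent.Y681.FR
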